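import Mathlib

set_option autoImplicit false

open MeasureTheory Filter Topology Set

namespace Pool.Agent.R217.TB

/-- The density of the rarefaction fan. -/
noncomputable def fan (α ρ2 m1 t ρ : ℝ) : ℝ :=
  (((ρ - ρ2) / (α * m1 * t)) ^ (-(α / (α - 1))) + α * t) ^ (-(1 / α))

/-- The density ahead of the inner shock and behind the outer shock: `0` up to `ρ2`, and the
fan beyond `ρ2`. -/
noncomputable def uR (α ρ2 m1 t ρ : ℝ) : ℝ := if ρ ≤ ρ2 then 0 else fan α ρ2 m1 t ρ

/-- The vortex density `(α t)^(-1/α)`. -/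
noncomputable def vort (α t : ℝ) : ℝ := (α * t) ^ (-(1 / α))

/-- The mass `m(t, ρ)` ahead of the inner shock and behind the outer shock. -/
noncomputable def mass (α ρ2 m1 t ρ : ℝ) : ℝ := m1 + ∫ r in ρ2..ρ, uR α ρ2 m1 t r

/-- `x ↦ (1 + (x₊)^q)^b` with `q = α/(α-1)`, `b = (α-1)/α`. -/
noncomputable def G (α x : ℝ) : ℝ := (1 + (max x 0) ^ (α / (α - 1))) ^ ((α - 1) / α)

/-- The derivative of `G`. -/
noncomputable def G' (α x : ℝ) : ℝ :=
  (max x 0) ^ (α / (α - 1) - 1) * (1 + (max x 0) ^ (α / (α - 1))) ^ ((α - 1) / α - 1)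

lemma hasDerivAt_pos_rpow {q : ℝ} (hq : 1 < q) (x : ℝ) :
    HasDerivAt (fun x : ℝ => (max x 0) ^ q) (q * (max x 0) ^ (q - 1)) x := by
  rcases lt_trichotomy x 0 with hx | hx | hx
  · have h1 : (fun y : ℝ => (max y 0) ^ q) =ᶠ[𝓝 x] fun _ => (0:ℝ) := by
      filter_upwards [Iio_mem_nhds hx] with y hy
      rw [max_eq_right (le_of_lt hy), Real.zero_rpow (by linarith)]
    have h2 : q * (max x 0) ^ (q - 1) = 0 := by
      rw [max_eq_right hx.le, Real.zero_rpow (by linarith), mul_zero]
    rw [h2]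
    exact (hasDerivAt_const x (0:ℝ)).congr_of_eventuallyEq h1
  · subst hx
    have h2 : q * (max (0:ℝ) 0) ^ (q - 1) = 0 := by
      rw [max_self, Real.zero_rpow (by linarith), mul_zero]
    rw [h2]
    have h3 : HasDerivAt (fun x : ℝ => x ^ q) 0 0 := by
      have := Real.hasDerivAt_rpow_const (x := 0) (p := q) (Or.inr hq.le)
      rwa [Real.zero_rpow (by linarith), mul_zero] at this
    have h4 : HasDerivWithinAt (fun x : ℝ => (max x 0) ^ q) 0 (Ici 0) 0 := by
      apply h3.hasDerivWithinAt.congr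
      · intro y hy
        rw [max_eq_left hy]
      · simp
    have h5 : HasDerivWithinAt (fun x : ℝ => (max x 0) ^ q) 0 (Iic 0) 0 := by
      apply (hasDerivAt_const (0:ℝ) (0:ℝ)).hasDerivWithinAt.congr
      · intro y hy
        rw [max_eq_right hy, Real.zero_rpow (by linarith)]
      · simp only [max_self]
        rw [Real.zero_rpow (by linarith)]
    have h6 := h5.union h4
    rwa [Iic_union_Ici, hasDerivWithinAt_univ] at h6
  · have h1 : (fun y : ℝ => (max y 0) ^ q) =ᶠ[𝓝 x] fun y => y ^ q := by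
      filter_upwards [Ioi_mem_nhds hx] with y hy
      rw [max_eq_left (le_of_lt hy)]
    rw [max_eq_left hx.le]
    exact (Real.hasDerivAt_rpow_const (Or.inl hx.ne')).congr_of_eventuallyEq h1

variable {α : ℝ}

lemma one_lt_q (hα : 1 < α) : 1 < α / (α - 1) := by
  rw [lt_div_iff₀ (by linarith)]; linarith

lemma hasDerivAt_G (hα : 1 < α) (x : ℝ) : HasDerivAt (G α) (G' α x) x := by
  have h1 := (hasDerivAt_pos_rpow (one_lt_q hα) x).const_add 1
  have hpos : 0 < 1 + (max x 0) ^ (α / (α - 1)) := by positivity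
  have h2 := h1.rpow_const (p := (α - 1) / α) (Or.inl hpos.ne')
  refine h2.congr_deriv ?_
  rw [G']
  have : α ≠ 0 := by linarith
  have h3 : α - 1 ≠ 0 := by linarith
  have h4 : α / (α - 1) * ((α - 1) / α) = 1 := by field_simp
  linear_combination ((max x 0) ^ (α / (α - 1) - 1) *
    (1 + (max x 0) ^ (α / (α - 1))) ^ ((α - 1) / α - 1)) * h4

lemma cont_G' (hα : 1 < α) : Continuous (G' α) := by
  have hm : Continuous fun x : ℝ => max x 0 := continuous_id.max continuous_const
  have hq := one_lt_q hα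
  unfold G'
  apply Continuous.mul
  · exact hm.rpow_const fun x => Or.inr (by linarith)
  · apply Continuous.rpow_const
    · exact continuous_const.add (hm.rpow_const fun x => Or.inr (by linarith))
    · intro x
      left
      have : 0 < 1 + (max x 0) ^ (α / (α - 1)) := by positivity
      exact this.ne'

lemma vort_pos (hα : 1 < α) {t : ℝ} (ht : 0 < t) : 0 < vort α t :=
  Real.rpow_pos_of_pos (by positivity) _

/-- The fan in similarity variables. -/
lemma uR_eq (hα : 1 < α) {m1 : ℝ} (hm1 : 0 < m1) (ρ2 : ℝ) {t : ℝ} (ht : 0 < t) (r : ℝ) :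
    uR α ρ2 m1 t r = vort α t * G' α ((r - ρ2) * vort α t / m1) := by
  have hp := vort_pos hα ht
  have hα0 : 0 < α := by linarith
  have hα1 : 0 < α - 1 := by linarith
  rw [uR]
  split_ifs with hr
  · have h0 : (r - ρ2) * vort α t / m1 ≤ 0 := by
      apply div_nonpos_of_nonpos_of_nonneg _ hm1.le
      exact mul_nonpos_of_nonpos_of_nonneg (by linarith) hp.le
    rw [G', max_eq_right h0, Real.zero_rpow (by have := one_lt_q hα; linarith)]
    ring
  · push Not at hr
    have hr0 : 0 < r - ρ2 := by linarith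
    set X := (r - ρ2) * vort α t / m1 with hX
    have hX0 : 0 < X := by positivity
    set T := α * t with hT
    have hT0 : 0 < T := by positivity
    have e1 : (r - ρ2) / (α * m1 * t) = X * T ^ (-((α - 1) / α)) := by
      rw [hX, vort, ← hT]
      have e2 : T ^ (-(1 / α)) * T ^ (-((α - 1) / α)) = T⁻¹ := by
        rw [← Real.rpow_add hT0, ← Real.rpow_neg_one]
        congr 1; field_simp; ring
      calc (r - ρ2) / (α * m1 * t) = (r - ρ2) / m1 * T⁻¹ := by rw [hT]; field_simp
        _ = (r - ρ2) / m1 * (T ^ (-(1 / α)) * T ^ (-((α - 1) / α))) := by rw [e2]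
        _ = _ := by ring
    have e3 : ((r - ρ2) / (α * m1 * t)) ^ (-(α / (α - 1))) = X ^ (-(α / (α - 1))) * T := by
      rw [e1, Real.mul_rpow hX0.le (by positivity), ← Real.rpow_mul hT0.le]
      congr 1
      have : -((α - 1) / α) * -(α / (α - 1)) = 1 := by field_simp
      rw [this, Real.rpow_one]
    rw [fan, e3, ← hT, vort, ← hT, G', max_eq_left hX0.le]
    have e4 : X ^ (-(α / (α - 1))) * T + T = T * (X ^ (-(α / (α - 1))) *
        (1 + X ^ (α / (α - 1)))) := by
      have : X ^ (-(α / (α - 1))) * X ^ (α / (α - 1)) = 1 := by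
        rw [← Real.rpow_add hX0]; simp
      linear_combination (-T) * this
    clear_value T X
    rw [e4, Real.mul_rpow hT0.le (by positivity),
      Real.mul_rpow (x := X ^ (-(α / (α - 1)))) (by positivity) (by positivity),
      ← Real.rpow_mul hX0.le]
    have e5 : -(α / (α - 1)) * -(1 / α) = α / (α - 1) - 1 := by field_simp; ring
    have e6 : (α - 1) / α - 1 = -(1 / α) := by field_simp; ring
    rw [e5, e6]

lemma mass_eq (hα : 1 < α) {m1 : ℝ} (hm1 : 0 < m1) (ρ2 : ℝ) {t : ℝ} (ht : 0 < t) (ρ : ℝ) :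
    mass α ρ2 m1 t ρ = m1 * G α ((ρ - ρ2) * vort α t / m1) := by
  have hd : ∀ r, HasDerivAt (fun r => m1 * G α ((r - ρ2) * vort α t / m1))
      (uR α ρ2 m1 t r) r := by
    intro r
    have e1 : HasDerivAt (fun r : ℝ => (r - ρ2) * vort α t / m1) (vort α t / m1) r := by
      have := (((hasDerivAt_id r).sub_const ρ2).mul_const (vort α t)).div_const m1
      simpa using this
    have e2 := ((hasDerivAt_G hα ((r - ρ2) * vort α t / m1)).comp r e1).const_mul m1
    refine e2.congr_deriv ?_
    rw [uR_eq hα hm1 ρ2 ht]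
    field_simp
  have hc : Continuous fun r => uR α ρ2 m1 t r := by
    have : (fun r => uR α ρ2 m1 t r) = fun r => vort α t * G' α ((r - ρ2) * vort α t / m1) := by
      funext r; exact uR_eq hα hm1 ρ2 ht r
    rw [this]
    have := cont_G' hα
    fun_prop
  rw [mass, intervalIntegral.integral_eq_sub_of_hasDerivAt (fun r _ => hd r)
    (hc.intervalIntegrable _ _)]
  have e0 : G α ((ρ2 - ρ2) * vort α t / m1) = 1 := by
    rw [sub_self, zero_mul, zero_div, G, max_self, Real.zero_rpow
      (by have := one_lt_q hα; linarith), add_zero, Real.one_rpow]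
  rw [e0]
  ring

end Pool.Agent.R217.TB
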