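import Pool.Agent.R217.TB.Main

set_option autoImplicit false

open MeasureTheory Filter Topology Set

namespace Pool.Agent.R217.TB

variable {α ρ1 ρ2 m1 m2 : ℝ}

/-- The profile `G x - x`. -/
noncomputable def ff (α x : ℝ) : ℝ := G α x - x

lemma hasDerivAt_ff (hα : 1 < α) (x : ℝ) : HasDerivAt (ff α) (G' α x - 1) x :=
  (hasDerivAt_G hα x).sub (hasDerivAt_id x)

lemma ff_pos (hα : 1 < α) (x : ℝ) : 0 < ff α x := by
  have hα0 : 0 < α := by linarith
  have hα1 : 0 < α - 1 := by linarith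
  rcases le_or_gt x 0 with hx | hx
  · have : 0 < G α x := by rw [G]; positivity
    simp only [ff]; linarith
  · have : x < G α x := by
      have e : x = (x ^ (α / (α - 1))) ^ ((α - 1) / α) := by
        rw [← Real.rpow_mul hx.le]
        have : α / (α - 1) * ((α - 1) / α) = 1 := by field_simp
        rw [this, Real.rpow_one]
      rw [G, max_eq_left hx.le]
      nth_rewrite 1 [e]
      apply Real.rpow_lt_rpow (by positivity) _ (by positivity)
      linarith
    simp only [ff]; linarith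

lemma ff_anti (hα : 1 < α) : StrictAnti (ff α) := by
  apply strictAnti_of_hasDerivAt_neg (f' := fun x => G' α x - 1)
  · exact hasDerivAt_ff hα
  · intro x
    have := G'_lt_one hα x
    linarith

lemma ff_of_nonpos (hα : 1 < α) {x : ℝ} (hx : x ≤ 0) : ff α x = 1 - x := by
  rw [ff, G, max_eq_right hx, Real.zero_rpow (by have := one_lt_q hα; linarith), add_zero,
    Real.one_rpow]

lemma ff_tendsto (hα : 1 < α) : Tendsto (ff α) atTop (𝓝 0) := by
  have hα0 : 0 < α := by linarith
  have hα1 : 0 < α - 1 := by linarith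
  have hq := one_lt_q hα
  have hb : Tendsto (fun x : ℝ => (α - 1) / α * x ^ (-(α / (α - 1) - 1))) atTop (𝓝 0) := by
    have := (tendsto_rpow_neg_atTop (by linarith : 0 < α / (α - 1) - 1)).const_mul ((α - 1) / α)
    simpa using this
  refine squeeze_zero' (Eventually.of_forall fun x => (ff_pos hα x).le) ?_ hb
  filter_upwards [eventually_gt_atTop 0] with x hx
  rw [ff, G, max_eq_left hx.le]
  have e1 : (1 + x ^ (α / (α - 1))) = x ^ (α / (α - 1)) * (1 + x ^ (-(α / (α - 1)))) := by
    have : x ^ (α / (α - 1)) * x ^ (-(α / (α - 1))) = 1 := by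
      rw [← Real.rpow_add hx]; simp
    linear_combination -this
  have e2 : (1 + x ^ (α / (α - 1))) ^ ((α - 1) / α) =
      x * (1 + x ^ (-(α / (α - 1)))) ^ ((α - 1) / α) := by
    rw [e1, Real.mul_rpow (by positivity) (by positivity), ← Real.rpow_mul hx.le]
    have : α / (α - 1) * ((α - 1) / α) = 1 := by field_simp
    rw [this, Real.rpow_one]
  have hs : -1 ≤ x ^ (-(α / (α - 1))) := by
    have : 0 < x ^ (-(α / (α - 1))) := by positivity
    linarith
  have hle : (α - 1) / α ≤ 1 := by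
    rw [div_le_one hα0]; linarith
  have e3 := rpow_one_add_le_one_add_mul_self hs (by positivity) hle
  have e4 : x * x ^ (-(α / (α - 1))) = x ^ (-(α / (α - 1) - 1)) := by
    nth_rewrite 1 [← Real.rpow_one x]
    rw [← Real.rpow_add hx]
    congr 1; ring
  rw [e2]
  have e5 := mul_le_mul_of_nonneg_left e3 hx.le
  calc _ ≤ x * (1 + (α - 1) / α * x ^ (-(α / (α - 1)))) - x := by linarith
    _ = (α - 1) / α * (x * x ^ (-(α / (α - 1)))) := by ring
    _ = _ := by rw [e4]

/-- `-log f`. -/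
noncomputable def kk (α x : ℝ) : ℝ := -Real.log (ff α x)

lemma kk_mono (hα : 1 < α) : StrictMono (kk α) := by
  intro x y hxy
  have := Real.log_lt_log (ff_pos hα y) (ff_anti hα hxy)
  simp only [kk]; linarith

lemma kk_cont (hα : 1 < α) : Continuous (kk α) := by
  have hc : Continuous (ff α) :=
    continuous_iff_continuousAt.2 fun x => (hasDerivAt_ff hα x).continuousAt
  exact (hc.log fun x => (ff_pos hα x).ne').neg

lemma kk_surj (hα : 1 < α) : Function.Surjective (kk α) := by
  apply (kk_cont hα).surjective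
  · have h1 : Tendsto (ff α) atTop (𝓝[>] 0) :=
      tendsto_nhdsWithin_iff.2 ⟨ff_tendsto hα, Eventually.of_forall fun x => ff_pos hα x⟩
    exact tendsto_neg_atBot_atTop.comp (Real.tendsto_log_nhdsGT_zero.comp h1)
  · have h1 : Tendsto (ff α) atBot atTop := by
      have h2 : Tendsto (fun x : ℝ => 1 - x) atBot atTop := by
        have := tendsto_atTop_add_const_left atBot (1:ℝ) tendsto_neg_atBot_atTop
        simpa [sub_eq_add_neg] using this
      refine h2.congr' ?_
      filter_upwards [eventually_le_atBot 0] with x hx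
      rw [ff_of_nonpos hα hx]
    exact tendsto_neg_atTop_atBot.comp (Real.tendsto_log_atTop.comp h1)

/-- The inverse of `kk`. -/
noncomputable def kiso (hα : 1 < α) : ℝ ≃o ℝ :=
  (kk_mono hα).orderIsoOfSurjective (kk α) (kk_surj hα)

/-- The inverse of the profile `f` on positive numbers. -/
noncomputable def gg (hα : 1 < α) (y : ℝ) : ℝ := (kiso hα).symm (-Real.log y)

lemma ff_gg (hα : 1 < α) {y : ℝ} (hy : 0 < y) : ff α (gg hα y) = y := by
  have h1 : kk α (gg hα y) = -Real.log y := by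
    have := (kiso hα).apply_symm_apply (-Real.log y)
    exact this
  rw [kk] at h1
  have h2 : Real.log (ff α (gg hα y)) = Real.log y := by linarith
  exact Real.log_injOn_pos (ff_pos hα _) hy h2

lemma gg_cont (hα : 1 < α) {y : ℝ} (hy : 0 < y) : ContinuousAt (gg hα) y := by
  have h1 : Continuous (kiso hα).symm := (kiso hα).symm.continuous
  have h2 : ContinuousAt (fun y => -Real.log y) y := (Real.continuousAt_log hy.ne').neg
  exact ContinuousAt.comp (g := (kiso hα).symm) h1.continuousAt h2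

lemma gg_deriv (hα : 1 < α) {y : ℝ} (hy : 0 < y) :
    HasDerivAt (gg hα) (G' α (gg hα y) - 1)⁻¹ y := by
  apply HasDerivAt.of_local_left_inverse (gg_cont hα hy) (hasDerivAt_ff hα _)
  · have := G'_lt_one hα (gg hα y)
    linarith
  · filter_upwards [Ioi_mem_nhds hy] with z hz
    exact ff_gg hα hz

/-- The inner shock, if it would never meet the outer shock. -/
noncomputable def sh (hα : 1 < α) (ρ1 ρ2 m1 t : ℝ) : ℝ :=
  ρ2 + m1 * gg hα ((ρ2 - ρ1) / m1 * vort α t) / vort α t

lemma sh_deriv (hα : 1 < α) (hρ : ρ1 < ρ2) (hm1 : 0 < m1) {t : ℝ} (ht : 0 < t) :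
    HasDerivAt (sh hα ρ1 ρ2 m1) (mass α ρ2 m1 t (sh hα ρ1 ρ2 m1 t) *
      ((uR α ρ2 m1 t (sh hα ρ1 ρ2 m1 t) ^ α - vort α t ^ α) /
        (uR α ρ2 m1 t (sh hα ρ1 ρ2 m1 t) - vort α t))) t := by
  have hp := vort_pos hα ht
  have hpd := hasDerivAt_vort hα ht
  have hc : 0 < (ρ2 - ρ1) / m1 := div_pos (by linarith) hm1
  set y := (ρ2 - ρ1) / m1 * vort α t with hy
  have hy0 : 0 < y := by positivity
  set X := gg hα y with hX
  have hfX : ff α X = y := ff_gg hα hy0
  have hXs : (sh hα ρ1 ρ2 m1 t - ρ2) * vort α t / m1 = X := by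
    rw [sh, ← hy, ← hX]; field_simp; ring
  rw [mass_eq hα hm1 ρ2 ht, uR_eq hα hm1 ρ2 ht, hXs]
  have hG1 := G'_lt_one hα X
  have hG0 : 0 ≤ G' α X := by rw [G']; positivity
  have hpow : (vort α t * G' α X) ^ α = (α * t)⁻¹ *
      ((max X 0) ^ (α / (α - 1)) / (1 + (max X 0) ^ (α / (α - 1)))) := by
    rw [Real.mul_rpow hp.le hG0, vort_pow hα ht, G'_pow hα]
  rw [hpow, vort_pow hα ht]
  have hd1 := (gg_deriv hα hy0).comp t (hpd.const_mul ((ρ2 - ρ1) / m1))
  have hd2 := ((hd1.const_mul m1).div hpd hp.ne').const_add ρ2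
  refine hd2.congr_deriv ?_
  set k := (max X 0) ^ (α / (α - 1)) / (1 + (max X 0) ^ (α / (α - 1))) with hk
  have hGm : G α X * k = X * G' α X := G_mul hα X
  have hff : G α X - X = (ρ2 - ρ1) / m1 * vort α t := hfX
  simp only [Function.comp_apply, ← hy, ← hX]
  set g := G' α X
  set p := vort α t with hpdef
  set γ := G α X
  have hg : g - 1 ≠ 0 := by linarith
  have hT : α * t ≠ 0 := by positivity
  generalize α * t = T at *
  have hden : p * g - p ≠ 0 := by
    have : p * g - p = p * (g - 1) := by ring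
    rw [this]; positivity
  have e2 : (ρ2 - ρ1) / m1 * -(p * T⁻¹) = -((γ - X) * T⁻¹) := by rw [hff]; ring
  rw [e2]
  have hm1' : m1 ≠ 0 := hm1.ne'
  have e3 : p * g - p = p * (g - 1) := by ring
  rw [e3]
  field_simp
  linear_combination (-1) * hGm

lemma vort_inv (hα : 1 < α) {t : ℝ} (ht : 0 < t) : (vort α t)⁻¹ = (α * t) ^ (1 / α) := by
  rw [vort, Real.rpow_neg (by positivity), inv_inv]

lemma tendsto_vort_inv (hα : 1 < α) : Tendsto (fun t => (vort α t)⁻¹) (𝓝[>] 0) (𝓝 0) := by
  have hc : Continuous fun t : ℝ => (α * t) ^ (1 / α) := by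
    apply Continuous.rpow_const (by fun_prop)
    intro x; right; positivity
  have := hc.tendsto 0
  rw [mul_zero, Real.zero_rpow (by positivity)] at this
  refine (this.mono_left nhdsWithin_le_nhds).congr' ?_
  filter_upwards [self_mem_nhdsWithin] with t ht
  rw [vort_inv hα ht]

lemma sh_tendsto (hα : 1 < α) (hρ : ρ1 < ρ2) (hm1 : 0 < m1) :
    Tendsto (sh hα ρ1 ρ2 m1) (𝓝[>] 0) (𝓝 ρ1) := by
  have hv := tendsto_vort_inv hα
  have h1 : Tendsto (fun t => ρ1 + m1 * (vort α t)⁻¹) (𝓝[>] 0) (𝓝 ρ1) := by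
    have := (hv.const_mul m1).const_add ρ1
    simpa using this
  refine h1.congr' ?_
  have hc : 0 < (ρ2 - ρ1) / m1 := div_pos (by linarith) hm1
  have hev : ∀ᶠ t in 𝓝[>] (0:ℝ), (vort α t)⁻¹ < (ρ2 - ρ1) / m1 :=
    hv.eventually (gt_mem_nhds hc)
  filter_upwards [hev, self_mem_nhdsWithin] with t h1 ht
  have ht0 : (0:ℝ) < t := ht
  have hp := vort_pos hα ht0
  have h2 : 1 ≤ (ρ2 - ρ1) / m1 * vort α t := by
    have := mul_lt_mul_of_pos_right h1 hp
    rw [inv_mul_cancel₀ hp.ne'] at this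
    exact this.le
  have h3 : gg hα ((ρ2 - ρ1) / m1 * vort α t) = 1 - (ρ2 - ρ1) / m1 * vort α t := by
    apply (ff_anti hα).injective
    rw [ff_gg hα (by positivity), ff_of_nonpos hα (by linarith)]
    ring
  rw [sh, h3]
  field_simp
  ring

/-- The outer shock in similarity variables. -/
noncomputable def LL (α m1 m2 : ℝ) : ℝ :=
  ((1 + m2 / m1) ^ (α / (α - 1)) - 1) ^ ((α - 1) / α)

lemma LL_pos (hα : 1 < α) (hm1 : 0 < m1) (hm2 : 0 < m2) : 0 < LL α m1 m2 := by
  have hα1 : 0 < α - 1 := by linarith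
  apply Real.rpow_pos_of_pos
  have : 1 < (1 + m2 / m1) ^ (α / (α - 1)) := by
    apply Real.one_lt_rpow
    · have : 0 < m2 / m1 := by positivity
      linarith
    · positivity
  linarith

lemma G_LL (hα : 1 < α) (hm1 : 0 < m1) (hm2 : 0 < m2) : m1 * G α (LL α m1 m2) = m1 + m2 := by
  have hL := LL_pos hα hm1 hm2
  have hα1 : 0 < α - 1 := by linarith
  have hα0 : 0 < α := by linarith
  have h1 : 1 < (1 + m2 / m1) ^ (α / (α - 1)) := by
    apply Real.one_lt_rpow
    · have : 0 < m2 / m1 := by positivity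
      linarith
    · positivity
  rw [G, max_eq_left hL.le, LL, ← Real.rpow_mul (by linarith)]
  have e1 : (α - 1) / α * (α / (α - 1)) = 1 := by field_simp
  rw [e1, Real.rpow_one, add_sub_cancel, ← Real.rpow_mul (by positivity)]
  have e2 : α / (α - 1) * ((α - 1) / α) = 1 := by field_simp
  rw [e2, Real.rpow_one]
  field_simp

/-- The two-bump solution exists. -/
theorem exists_twoBump (hα : 1 < α) (hρ : ρ1 < ρ2) (hm1 : 0 < m1) (hm2 : 0 < m2) :
    ∃ S1 S2 : ℝ → ℝ, TwoBump α ρ1 ρ2 m1 m2 S1 S2 := by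
  set S2 : ℝ → ℝ := fun t => ρ2 + m1 * LL α m1 m2 * (vort α t)⁻¹ with hS2
  set S1 : ℝ → ℝ := fun t => if 0 < t then min (sh hα ρ1 ρ2 m1 t) (S2 t) else ρ1 with hS1
  have hL := LL_pos hα hm1 hm2
  have hS1pos : ∀ t, 0 < t → S1 t = min (sh hα ρ1 ρ2 m1 t) (S2 t) := fun t ht => by
    simp only [hS1, if_pos ht]
  have hS2c : ∀ t, 0 < t → ContinuousAt S2 t := by
    intro t ht
    have hp := vort_pos hα ht
    exact (((hasDerivAt_vort hα ht).continuousAt.inv₀ hp.ne').const_mul _).const_add _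
  refine ⟨S1, S2, ?_, ?_, ?_, ?_, ?_⟩
  · intro t ht
    rcases (mem_Ici.1 ht).eq_or_lt with h0 | h0
    · subst h0
      have h1 : S1 0 = ρ1 := by simp [hS1]
      rw [ContinuousWithinAt, h1]
      have h2 : Tendsto S1 (𝓝[>] 0) (𝓝 ρ1) := by
        have h3 : Tendsto S2 (𝓝[>] 0) (𝓝 ρ2) := by
          have := ((tendsto_vort_inv hα).const_mul (m1 * LL α m1 m2)).const_add ρ2
          simpa using this
        have h4 := (sh_tendsto hα hρ hm1).min h3
        rw [min_eq_left hρ.le] at h4
        refine h4.congr' ?_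
        filter_upwards [self_mem_nhdsWithin] with t ht
        rw [hS1pos t ht]
      rw [← Ioi_insert, nhdsWithin_insert]
      rw [tendsto_sup]
      refine ⟨?_, h2⟩
      rw [tendsto_pure_left]
      intro s hs
      rw [h1]; exact mem_of_mem_nhds hs
    · apply ContinuousAt.continuousWithinAt
      have h1 : ContinuousAt (fun t => min (sh hα ρ1 ρ2 m1 t) (S2 t)) t :=
        (sh_deriv hα hρ hm1 h0).continuousAt.min (hS2c t h0)
      apply h1.congr
      filter_upwards [Ioi_mem_nhds h0] with s hs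
      rw [hS1pos s hs]
  · simp [hS1]
  · intro t ht
    rw [hS1pos t ht]
    exact min_le_right _ _
  · intro t ht _
    have hp := vort_pos hα ht
    constructor
    · have : 0 < m1 * LL α m1 m2 * (vort α t)⁻¹ := by positivity
      simp only [hS2]; linarith
    · have h1 := mass_eq hα hm1 ρ2 ht (S2 t)
      have h2 : (S2 t - ρ2) * vort α t / m1 = LL α m1 m2 := by
        simp only [hS2]; field_simp; ring
      rw [h2, G_LL hα hm1 hm2, mass] at h1
      linarith
  · intro t ht hlt
    have h1 := hlt t ht le_rfl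
    rw [hS1pos t ht] at h1
    have h2 : sh hα ρ1 ρ2 m1 t < S2 t := by
      by_contra hcon
      push Not at hcon
      rw [min_eq_right hcon] at h1
      exact lt_irrefl _ h1
    have h3 : S1 t = sh hα ρ1 ρ2 m1 t := by rw [hS1pos t ht, min_eq_left h2.le]
    rw [h3]
    apply (sh_deriv hα hρ hm1 ht).congr_of_eventuallyEq
    have h4 : ∀ᶠ s in 𝓝 t, sh hα ρ1 ρ2 m1 s < S2 s :=
      (sh_deriv hα hρ hm1 ht).continuousAt.eventually_lt (hS2c t ht) h2
    filter_upwards [h4, Ioi_mem_nhds ht] with s hs hs0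
    rw [hS1pos s hs0, min_eq_left hs.le]

end Pool.Agent.R217.TB
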