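import Pool.Agent.R217.TB.Basic

set_option autoImplicit false

open MeasureTheory Filter Topology Set

namespace Pool.Agent.R217.TB

/-- The shocks `S1 ≤ S2` of a two-bump solution. As long as they have not met, the outer shock is
beyond `ρ2` and is determined by the mass of the fan, and the inner shock moves by the
Rankine-Hugoniot condition. -/
structure TwoBump (α ρ1 ρ2 m1 m2 : ℝ) (S1 S2 : ℝ → ℝ) : Prop where
  cont : ContinuousOn S1 (Ici 0)
  init : S1 0 = ρ1
  le : ∀ t, 0 < t → S1 t ≤ S2 t
  outer : ∀ t, 0 < t → (∀ s, 0 < s → s ≤ t → S1 s < S2 s) →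
    ρ2 < S2 t ∧ ∫ r in ρ2..S2 t, uR α ρ2 m1 t r = m2
  rh : ∀ t, 0 < t → (∀ s, 0 < s → s ≤ t → S1 s < S2 s) →
    HasDerivAt S1 (mass α ρ2 m1 t (S1 t) *
      ((uR α ρ2 m1 t (S1 t) ^ α - vort α t ^ α) / (uR α ρ2 m1 t (S1 t) - vort α t))) t

variable {α ρ1 ρ2 m1 m2 : ℝ} {S1 S2 : ℝ → ℝ}

lemma G'_lt_one (hα : 1 < α) (x : ℝ) : G' α x < 1 := by
  rw [G']
  have hq := one_lt_q hα
  set y := max x 0 with hy
  have hy0 : 0 ≤ y := le_max_right _ _
  rcases hy0.eq_or_lt with h | h
  · rw [← h, Real.zero_rpow (by linarith), zero_mul]; norm_num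
  · have hα0 : 0 < α := by linarith
    have hα1 : 0 < α - 1 := by linarith
    have e1 : y ^ (α / (α - 1) - 1) = (y ^ (α / (α - 1))) ^ (1 / α) := by
      rw [← Real.rpow_mul hy0]
      congr 1; field_simp; ring
    have e2 : (α - 1) / α - 1 = -(1 / α) := by field_simp; ring
    rw [e1, e2, Real.rpow_neg (by positivity), ← div_eq_mul_inv, ← Real.div_rpow (by positivity)
      (by positivity)]
    apply Real.rpow_lt_one (by positivity) _ (by positivity)
    rw [div_lt_one (by positivity)]
    linarith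

lemma G'_pow (hα : 1 < α) (x : ℝ) :
    G' α x ^ α = (max x 0) ^ (α / (α - 1)) / (1 + (max x 0) ^ (α / (α - 1))) := by
  rw [G']
  have hα0 : 0 < α := by linarith
  have hα1 : 0 < α - 1 := by linarith
  set y := max x 0 with hy
  have hy0 : 0 ≤ y := le_max_right _ _
  rw [Real.mul_rpow (by positivity) (by positivity), ← Real.rpow_mul hy0,
    ← Real.rpow_mul (by positivity)]
  have e1 : (α / (α - 1) - 1) * α = α / (α - 1) := by field_simp; ring
  have e2 : ((α - 1) / α - 1) * α = -1 := by field_simp; ring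
  rw [e1, e2, Real.rpow_neg_one]
  rfl

lemma G_mul (hα : 1 < α) (x : ℝ) :
    G α x * ((max x 0) ^ (α / (α - 1)) / (1 + (max x 0) ^ (α / (α - 1)))) = x * G' α x := by
  rw [G, G']
  have hq := one_lt_q hα
  rcases le_or_gt x 0 with h | h
  · rw [max_eq_right h, Real.zero_rpow (by linarith), Real.zero_rpow (by linarith)]
    simp
  · rw [max_eq_left h.le]
    have hp : 0 < 1 + x ^ (α / (α - 1)) := by positivity
    rw [Real.rpow_sub_one hp.ne', Real.rpow_sub_one h.ne']
    field_simp

lemma vort_pow (hα : 1 < α) {t : ℝ} (ht : 0 < t) : vort α t ^ α = (α * t)⁻¹ := by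
  rw [vort, ← Real.rpow_mul (by positivity), ← Real.rpow_neg_one]
  congr 1
  have : α ≠ 0 := by linarith
  field_simp

lemma hasDerivAt_vort (hα : 1 < α) {t : ℝ} (ht : 0 < t) :
    HasDerivAt (vort α) (-(vort α t * (α * t)⁻¹)) t := by
  have h1 : HasDerivAt (fun t : ℝ => α * t) α t := by
    simpa using (hasDerivAt_id t).const_mul α
  have hp : 0 < α * t := by positivity
  have h2 := h1.rpow_const (p := -(1 / α)) (Or.inl hp.ne')
  refine h2.congr_deriv ?_
  rw [vort, Real.rpow_sub_one hp.ne']
  have : α ≠ 0 := by linarith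
  field_simp

/-- The mass of the vortex part minus the mass at the inner shock satisfies a linear equation. -/
lemma deriv_D (h : TwoBump α ρ1 ρ2 m1 m2 S1 S2) (hα : 1 < α) (hm1 : 0 < m1) {t : ℝ} (ht : 0 < t)
    (hlt : ∀ s, 0 < s → s ≤ t → S1 s < S2 s) :
    HasDerivAt (fun t => (S1 t - ρ1) * vort α t - m1 * G α ((S1 t - ρ2) * vort α t / m1))
      (-(α * t)⁻¹ * ((S1 t - ρ1) * vort α t - m1 * G α ((S1 t - ρ2) * vort α t / m1))) t := by
  have hS := h.rh t ht hlt
  rw [mass_eq hα hm1 ρ2 ht, uR_eq hα hm1 ρ2 ht] at hS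
  have hp := vort_pos hα ht
  have hpd := hasDerivAt_vort hα ht
  set X := (S1 t - ρ2) * vort α t / m1 with hX
  have hG1 := G'_lt_one hα X
  have hG0 : 0 ≤ G' α X := by rw [G']; positivity
  have hpow : (vort α t * G' α X) ^ α = (α * t)⁻¹ *
      ((max X 0) ^ (α / (α - 1)) / (1 + (max X 0) ^ (α / (α - 1)))) := by
    rw [Real.mul_rpow hp.le hG0, vort_pow hα ht, G'_pow hα]
  rw [hpow, vort_pow hα ht] at hS
  set g := G' α X
  set k := (max X 0) ^ (α / (α - 1)) / (1 + (max X 0) ^ (α / (α - 1))) with hk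
  have hGm : G α X * k = X * g := G_mul hα X
  set p := vort α t with hpdef
  set s' := m1 * G α X * (((α * t)⁻¹ * k - (α * t)⁻¹) / (p * g - p)) with hs'
  have hs2 : s' * (p * (1 - g)) = m1 * G α X * (α * t)⁻¹ * (1 - k) := by
    have hne : p * g - p ≠ 0 := by
      have : p * g - p = -(p * (1 - g)) := by ring
      rw [this, neg_ne_zero]
      have : 0 < 1 - g := by linarith
      positivity
    have : s' * (p * g - p) = m1 * G α X * ((α * t)⁻¹ * k - (α * t)⁻¹) := by
      rw [hs', mul_assoc, div_mul_cancel₀ _ hne]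
    linear_combination -this
  have d1 := (hS.sub_const ρ1).mul hpd
  have d2 : HasDerivAt (fun t => (S1 t - ρ2) * vort α t / m1)
      ((s' * p + (S1 t - ρ2) * (-(p * (α * t)⁻¹))) / m1) t :=
    ((hS.sub_const ρ2).mul hpd).div_const m1
  have d3 := ((hasDerivAt_G hα X).comp t d2).const_mul m1
  refine (d1.sub d3).congr_deriv ?_
  have hm : m1 ≠ 0 := hm1.ne'
  have hXm : (S1 t - ρ2) * p = m1 * X := by rw [hX]; field_simp
  have e1 : m1 * (g * ((s' * p + (S1 t - ρ2) * (-(p * (α * t)⁻¹))) / m1)) =
      g * s' * p - (α * t)⁻¹ * g * (m1 * X) := by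
    rw [← hXm]; field_simp; ring
  change s' * p + (S1 t - ρ1) * (-(p * (α * t)⁻¹)) -
    m1 * (g * ((s' * p + (S1 t - ρ2) * (-(p * (α * t)⁻¹))) / m1)) = _
  rw [e1]
  linear_combination hs2 - (α * t)⁻¹ * m1 * hGm

/-- As long as the shocks have not met, the mass at the inner shock is the mass of the vortex
part. -/
lemma D_eq (h : TwoBump α ρ1 ρ2 m1 m2 S1 S2) (hα : 1 < α) (hm1 : 0 < m1) (hρ : ρ1 < ρ2)
    (hlt : ∀ s, 0 < s → S1 s < S2 s) {t : ℝ} (ht : 0 < t) :
    (S1 t - ρ1) * vort α t = m1 * G α ((S1 t - ρ2) * vort α t / m1) := by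
  set D : ℝ → ℝ := fun t => (S1 t - ρ1) * vort α t - m1 * G α ((S1 t - ρ2) * vort α t / m1)
    with hD
  have hDd : ∀ t, 0 < t → HasDerivAt D (-(α * t)⁻¹ * D t) t := fun t ht =>
    deriv_D h hα hm1 ht fun s hs _ => hlt s hs
  -- `D t / vort α t` is constant
  have hE : ∀ t, 0 < t → HasDerivAt (fun t => D t / vort α t) 0 t := by
    intro t ht
    have hp := vort_pos hα ht
    refine ((hDd t ht).div (hasDerivAt_vort hα ht) hp.ne').congr_deriv ?_
    field_simp
    ring
  have hconst : ∀ s t, 0 < s → 0 < t → D s / vort α s = D t / vort α t := by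
    intro s t hs ht
    have hdiff : DifferentiableOn ℝ (fun t => D t / vort α t) (Ioi 0) := fun x hx =>
      (hE x hx).differentiableAt.differentiableWithinAt
    have := (convex_Ioi (0:ℝ)).is_const_of_fderivWithin_eq_zero (𝕜 := ℝ)
      (f := fun t => D t / vort α t) hdiff (fun x hx => by
        rw [fderivWithin_of_isOpen isOpen_Ioi hx]
        ext
        simp [(hE x hx).hasFDerivAt.fderiv]) (mem_Ioi.2 hs) (mem_Ioi.2 ht)
    exact this
  -- the limit at `0`
  have hlim0 : Tendsto (fun t => D t / vort α t) (𝓝[>] 0) (𝓝 0) := by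
    have hS : Tendsto S1 (𝓝[>] 0) (𝓝 ρ1) := by
      have := (h.cont 0 (mem_Ici.2 le_rfl)).tendsto
      rw [h.init] at this
      exact this.mono_left (nhdsWithin_mono _ Ioi_subset_Ici_self)
    have hv : Tendsto (fun t => (α * t) ^ (1 / α)) (𝓝[>] 0) (𝓝 0) := by
      have hc : Continuous fun t : ℝ => (α * t) ^ (1 / α) := by
        apply Continuous.rpow_const (by fun_prop)
        intro x; right; positivity
      have := hc.tendsto 0
      rw [mul_zero, Real.zero_rpow (by positivity)] at this
      exact this.mono_left nhdsWithin_le_nhds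
    have h1 : Tendsto (fun t => (S1 t - ρ1) - m1 * (α * t) ^ (1 / α)) (𝓝[>] 0) (𝓝 0) := by
      have := (hS.sub_const ρ1).sub (hv.const_mul m1)
      simpa using this
    refine h1.congr' ?_
    have hev : ∀ᶠ t in 𝓝[>] (0:ℝ), S1 t < ρ2 := hS.eventually (gt_mem_nhds hρ)
    filter_upwards [hev, self_mem_nhdsWithin] with t hlt' ht'
    have ht0 : (0:ℝ) < t := ht'
    have hp := vort_pos hα ht0
    have hneg : (S1 t - ρ2) * vort α t / m1 ≤ 0 := by
      apply div_nonpos_of_nonpos_of_nonneg _ hm1.le
      exact mul_nonpos_of_nonpos_of_nonneg (by linarith) hp.le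
    have hG : G α ((S1 t - ρ2) * vort α t / m1) = 1 := by
      rw [G, max_eq_right hneg, Real.zero_rpow (by have := one_lt_q hα; linarith), add_zero,
        Real.one_rpow]
    have hinv : (α * t) ^ (1 / α) = (vort α t)⁻¹ := by
      rw [vort, Real.rpow_neg (by positivity), inv_inv]
    simp only [hD, hG]
    rw [hinv]
    field_simp
  have hz : D t / vort α t = 0 := by
    have h2 : Tendsto (fun _ : ℝ => D t / vort α t) (𝓝[>] 0) (𝓝 0) := by
      refine hlim0.congr' ?_
      filter_upwards [self_mem_nhdsWithin] with s hs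
      exact hconst s t hs ht
    exact tendsto_nhds_unique tendsto_const_nhds h2
  have hp := vort_pos hα ht
  have hD0 : D t = 0 := by
    rcases div_eq_zero_iff.1 hz with h1 | h1
    · exact h1
    · exact absurd h1 hp.ne'
  simp only [hD] at hD0
  linarith

/-- The shocks meet in finite time. -/
theorem merge (hα : 1 < α) (hρ : ρ1 < ρ2) (hm1 : 0 < m1)
    (h : TwoBump α ρ1 ρ2 m1 m2 S1 S2) : ∃ t, 0 < t ∧ S1 t = S2 t := by
  by_contra hcon
  push Not at hcon
  have hlt : ∀ s, 0 < s → S1 s < S2 s := fun s hs => lt_of_le_of_ne (h.le s hs) (hcon s hs)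
  -- the outer shock in similarity variables
  have hout : ∀ t, 0 < t → ρ2 < S2 t ∧ m1 * G α ((S2 t - ρ2) * vort α t / m1) = m1 + m2 := by
    intro t ht
    obtain ⟨h1, h2⟩ := h.outer t ht fun s hs _ => hlt s hs
    refine ⟨h1, ?_⟩
    rw [← mass_eq hα hm1 ρ2 ht, mass, h2]
  -- the profile `f`
  set f : ℝ → ℝ := fun x => G α x - x with hf
  have hcf : Continuous f := by
    have : Continuous (G α) := continuous_iff_continuousAt.2 fun x => (hasDerivAt_G hα x).continuousAt
    exact this.sub continuous_id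
  have hfpos : ∀ x, 0 < f x := by
    intro x
    have hα0 : 0 < α := by linarith
    have hα1 : 0 < α - 1 := by linarith
    rcases le_or_gt x 0 with hx | hx
    · have : 0 < G α x := by rw [G]; positivity
      simp only [hf]; linarith
    · have : x < G α x := by
        have e : x = (x ^ (α / (α - 1))) ^ ((α - 1) / α) := by
          rw [← Real.rpow_mul hx.le]
          have : α / (α - 1) * ((α - 1) / α) = 1 := by field_simp
          rw [this, Real.rpow_one]
        rw [G, max_eq_left hx.le]
        nth_rewrite 1 [e]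
        apply Real.rpow_lt_rpow (by positivity) _ (by positivity)
        linarith
      simp only [hf]; linarith
  have hfanti : StrictAnti f := by
    apply strictAnti_of_hasDerivAt_neg (f' := fun x => G' α x - 1)
    · intro x
      exact (hasDerivAt_G hα x).sub (hasDerivAt_id x)
    · intro x
      have := G'_lt_one hα x
      linarith
  have hGmono : Monotone (G α) := by
    apply monotone_of_hasDerivAt_nonneg (fun x => hasDerivAt_G hα x)
    intro x
    rw [G']; positivity
  -- a value `L` with `(S2 - ρ2) vort / m1` constant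
  set L := (S2 1 - ρ2) * vort α 1 / m1 with hL
  have hrel : ∀ t, 0 < t → f L ≤ (ρ2 - ρ1) * vort α t / m1 := by
    intro t ht
    have hp := vort_pos hα ht
    have hD := D_eq h hα hm1 hρ hlt ht
    set X := (S1 t - ρ2) * vort α t / m1 with hX
    have hfX : f X = (ρ2 - ρ1) * vort α t / m1 := by
      have e : m1 * X = (S1 t - ρ2) * vort α t := by rw [hX]; field_simp
      have : m1 * f X = (ρ2 - ρ1) * vort α t := by
        simp only [hf]
        linear_combination -hD - e
      rw [← this]; field_simp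
    rw [← hfX]
    apply hfanti.antitone
    -- `X ≤ L`
    by_contra hXL
    push Not at hXL
    have hX2 : X < (S2 t - ρ2) * vort α t / m1 := by
      rw [hX]
      apply div_lt_div_of_pos_right _ hm1
      apply mul_lt_mul_of_pos_right _ hp
      linarith [hlt t ht]
    have hL0 : 0 < L := by
      have := (hout 1 one_pos).1
      have := vort_pos hα one_pos
      rw [hL]
      apply div_pos (mul_pos (by linarith) this) hm1
    have e1 : G α L = G α ((S2 t - ρ2) * vort α t / m1) := by
      have a1 := (hout t ht).2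
      have a2 := (hout 1 one_pos).2
      rw [← hL] at a2
      have : m1 * G α L = m1 * G α ((S2 t - ρ2) * vort α t / m1) := by rw [a1, a2]
      exact mul_left_cancel₀ hm1.ne' this
    have e2 : G α L < G α ((S2 t - ρ2) * vort α t / m1) := by
      have hlt2 := hXL.trans hX2
      have hL2 : 0 < (S2 t - ρ2) * vort α t / m1 := hL0.trans hlt2
      have hα0 : 0 < α := by linarith
      have hα1 : 0 < α - 1 := by linarith
      rw [G, G, max_eq_left hL0.le, max_eq_left hL2.le]
      apply Real.rpow_lt_rpow (by positivity) _ (by positivity)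
      have : L ^ (α / (α - 1)) < ((S2 t - ρ2) * vort α t / m1) ^ (α / (α - 1)) :=
        Real.rpow_lt_rpow hL0.le hlt2 (by positivity)
      linarith
    linarith
  -- the limit at infinity
  have hlim : Tendsto (fun t => (ρ2 - ρ1) * vort α t / m1) atTop (𝓝 0) := by
    have h1 : Tendsto (vort α) atTop (𝓝 0) := by
      have h2 : Tendsto (fun t : ℝ => α * t) atTop atTop :=
        tendsto_id.const_mul_atTop (by linarith)
      exact (tendsto_rpow_neg_atTop (by positivity : 0 < 1 / α)).comp h2
    have := (h1.const_mul (ρ2 - ρ1)).div_const m1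
    simpa using this
  have hle : f L ≤ 0 := by
    apply ge_of_tendsto hlim
    filter_upwards [eventually_gt_atTop 0] with t ht
    exact hrel t ht
  exact absurd (hfpos L) (not_lt.2 hle)

end Pool.Agent.R217.TB
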